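import Pool.Agent.V11257.Cr8
import Pool.Agent.V11257.Zt9

/-!
# A model of ZF in which the space of the irrational numbers is not a k-space

The model is the first model of Cohen. The set of the real numbers that correspond to the Cohen
reals of the model is dense in the unit interval, and it meets every compact set of irrational
numbers in a finite set.
-/

namespace Pool.Agent.Results.MP_478558_lc.IrrationalsNotKSpace

open FirstOrder FirstOrder.Language
open Pool.Agent.Helper672.Plain (LSet Mem El)
open Pool.Agent.H635Amen (ZF IsReals)
open Pool.Agent.V11257C
open Pool.Agent.V11257Z (exists_of_forall)

universe u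

/-- There is a model of ZF (and for every model of ZF there is one in the same universe) in which
the space of the irrational numbers is not a k-space. -/
theorem result : (∃ (N : Type 1) (_ : LSet.Structure N), ZF N ∧ IrrNotK N) ∧
    ∀ (M : Type u) [LSet.Structure M], ZF M → ∃ (N : Type u) (_ : LSet.Structure N),
      ZF N ∧ IrrNotK N :=
  ⟨exists_of_forall fun M _ hM => exists_irrNotK M hM, fun M _ hM => exists_irrNotK M hM⟩

end Pool.Agent.Results.MP_478558_lc.IrrationalsNotKSpace
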